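import Mathlib

/-!
# Gabor Riesz bases with multi-tiling windows of level above one

For every dimension, every full rank lattice and every level `k ≥ 2` the union of `k` consecutive
cells of the lattice multi-tiles at level `k`, but its indicator function is not the window of a
Gabor Riesz basis with the translations in that lattice, whatever the set of modulations.
-/

set_option autoImplicit false

open MeasureTheory

namespace Pool.Agent.Results.MP_9d6809_an.Cells

/-- The Hilbert space of square integrable functions on `ℝ^d` with Lebesgue measure. -/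
noncomputable abbrev L2 (d : ℕ) := Lp ℂ 2 (volume : Measure (Fin d → ℝ))

/-- The full rank lattice `M ℤ^d` (when `det M ≠ 0`). -/
def lattice {d : ℕ} (M : Matrix (Fin d) (Fin d) ℝ) : Set (Fin d → ℝ) :=
  Set.range fun n : Fin d → ℤ => M.mulVec (fun i => (n i : ℝ))

/-- `Ω` is measurable, of positive finite measure, and almost every `x` lies in exactly `k` of the
translates `Ω + l`, `l ∈ Λ`. -/
def MultiTiles {d : ℕ} (Ω Λ : Set (Fin d → ℝ)) (k : ℕ) : Prop :=
  MeasurableSet Ω ∧ 0 < volume Ω ∧ volume Ω < ⊤ ∧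
    ∀ᵐ x : Fin d → ℝ, {l | l ∈ Λ ∧ x - l ∈ Ω}.Finite ∧ {l | l ∈ Λ ∧ x - l ∈ Ω}.ncard = k

/-- `f` is the Gabor system with window the indicator function of `Ω`, translations in `Λ` and
modulations in `Γ`: the element at `(l, γ)` is `x ↦ exp (2 π i γ·x) χ_Ω (x - l)`. -/
def IsGaborSystem {d : ℕ} (Ω Λ Γ : Set (Fin d → ℝ)) (f : Λ × Γ → L2 d) : Prop :=
  ∀ (l : Λ) (γ : Γ), (f (l, γ) : (Fin d → ℝ) → ℂ) =ᵐ[volume] fun x =>
    Complex.exp (2 * Real.pi * Complex.I * ((∑ i, (γ : Fin d → ℝ) i * x i : ℝ) : ℂ)) *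
      Ω.indicator (fun _ => (1 : ℂ)) (x - l)

/-- Riesz basis: the image of an orthonormal basis under a bounded invertible operator. -/
def IsRieszBasis {H : Type*} [NormedAddCommGroup H] [InnerProductSpace ℂ H] {ι : Type*}
    (f : ι → H) : Prop :=
  ∃ (b : HilbertBasis ι ℂ H) (T : H ≃L[ℂ] H), ∀ i, f i = T (b i)

section

variable {d : ℕ}

/-- The box with one side `[0, k)` and the others `[0, 1)`. -/
def box (i0 : Fin d) (k : ℕ) : Set (Fin d → ℝ) :=
  Set.pi Set.univ fun i => Set.Ico (0 : ℝ) (if i = i0 then (k : ℝ) else 1)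

lemma measurableSet_box (i0 : Fin d) (k : ℕ) : MeasurableSet (box i0 k) :=
  MeasurableSet.univ_pi fun _ => measurableSet_Ico

lemma volume_box (i0 : Fin d) (k : ℕ) : volume (box i0 k) = k := by
  unfold box
  rw [Real.volume_pi_Ico]
  simp only [sub_zero]
  rw [Finset.prod_eq_single i0]
  · simp
  · intro i _ hi
    simp [hi]
  · intro h; exact absurd (Finset.mem_univ _) h

/-- The window set. -/
def Om (M : Matrix (Fin d) (Fin d) ℝ) (i0 : Fin d) (k : ℕ) : Set (Fin d → ℝ) :=
  (Matrix.toLin' M⁻¹) ⁻¹' (box i0 k)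

lemma measurableSet_Om (M : Matrix (Fin d) (Fin d) ℝ) (i0 : Fin d) (k : ℕ) :
    MeasurableSet (Om M i0 k) :=
  (measurableSet_box i0 k).preimage (LinearMap.continuous_of_finiteDimensional _).measurable

lemma volume_Om (M : Matrix (Fin d) (Fin d) ℝ) (hM : M.det ≠ 0) (i0 : Fin d) (k : ℕ) :
    volume (Om M i0 k) = ENNReal.ofReal |M.det| * k := by
  have hd : LinearMap.det (Matrix.toLin' M⁻¹) ≠ 0 := by
    rw [LinearMap.det_toLin', Matrix.det_nonsing_inv, Ring.inverse_eq_inv']
    exact inv_ne_zero hM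
  unfold Om
  rw [Measure.addHaar_preimage_linearMap _ hd, volume_box, LinearMap.det_toLin',
    Matrix.det_nonsing_inv, Ring.inverse_eq_inv', inv_inv]

lemma inv_mul_vec (M : Matrix (Fin d) (Fin d) ℝ) (hM : M.det ≠ 0) (v : Fin d → ℝ) :
    M⁻¹.mulVec (M.mulVec v) = v := by
  rw [Matrix.mulVec_mulVec, Matrix.nonsing_inv_mul _ (isUnit_iff_ne_zero.2 hM), Matrix.one_mulVec]

lemma mem_Om (M : Matrix (Fin d) (Fin d) ℝ) (hM : M.det ≠ 0) (i0 : Fin d) (k : ℕ)
    (x n : Fin d → ℝ) : x - M.mulVec n ∈ Om M i0 k ↔ (M⁻¹.mulVec x) - n ∈ box i0 k := by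
  unfold Om
  rw [Set.mem_preimage, Matrix.toLin'_apply, Matrix.mulVec_sub, inv_mul_vec M hM]

lemma mulVec_inj (M : Matrix (Fin d) (Fin d) ℝ) (hM : M.det ≠ 0) :
    Function.Injective fun n : Fin d → ℤ => M.mulVec (fun i => (n i : ℝ)) := by
  intro n m h
  have h1 := congrArg M⁻¹.mulVec h
  simp only [inv_mul_vec M hM] at h1
  funext i
  exact_mod_cast congrFun h1 i

lemma count (i0 : Fin d) (k : ℕ) (y : Fin d → ℝ) :
    {n : Fin d → ℤ | y - (fun i => (n i : ℝ)) ∈ box i0 k} =
      ((Finset.range k).image fun j : ℕ => Function.update (fun i => ⌊y i⌋) i0 (⌊y i0⌋ - j) :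
        Finset (Fin d → ℤ)) := by
  ext n
  simp only [Set.mem_ofPred_eq, box, Set.mem_pi, Set.mem_univ, forall_true_left, Pi.sub_apply,
    Set.mem_Ico, Finset.coe_image, Set.mem_image, Finset.coe_range, Set.mem_Iio]
  constructor
  · intro h
    have h0 := h i0
    rw [if_pos rfl] at h0
    have h1 : n i0 ≤ ⌊y i0⌋ := Int.le_floor.2 (by linarith [h0.1])
    have h2 : ⌊y i0⌋ - n i0 < k := by
      have := Int.floor_le (y i0)
      have h3 : ((⌊y i0⌋ - n i0 : ℤ) : ℝ) < ((k : ℤ) : ℝ) := by push_cast; linarith [h0.2]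
      exact_mod_cast h3
    refine ⟨(⌊y i0⌋ - n i0).toNat, by omega, ?_⟩
    funext i
    by_cases hi : i = i0
    · subst hi
      rw [Function.update_self]
      omega
    · rw [Function.update_of_ne hi]
      have h3 := h i
      rw [if_neg hi] at h3
      rw [Int.floor_eq_iff]
      constructor <;> linarith [h3.1, h3.2]
  · rintro ⟨j, hj, rfl⟩ i
    by_cases hi : i = i0
    · subst hi
      rw [Function.update_self, if_pos rfl]
      push_cast
      have h1 := Int.floor_le (y i)
      have h2 := Int.lt_floor_add_one (y i)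
      have h3 : ((j : ℝ)) + 1 ≤ k := by exact_mod_cast hj
      constructor
      · have : (0 : ℝ) ≤ j := by positivity
        linarith
      · linarith
    · rw [Function.update_of_ne hi, if_neg hi]
      have h1 := Int.floor_le (y i)
      have h2 := Int.lt_floor_add_one (y i)
      constructor <;> linarith

lemma multiTiles (M : Matrix (Fin d) (Fin d) ℝ) (hM : M.det ≠ 0) (i0 : Fin d) (k : ℕ)
    (hk : 1 ≤ k) : MultiTiles (Om M i0 k) (lattice M) k := by
  refine ⟨measurableSet_Om M i0 k, ?_, ?_, Filter.Eventually.of_forall fun x => ?_⟩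
  · rw [volume_Om M hM]
    exact ENNReal.mul_pos (by simpa using hM) (by simp; omega)
  · rw [volume_Om M hM]
    exact ENNReal.mul_lt_top ENNReal.ofReal_lt_top (by simp)
  · have h1 : {l | l ∈ lattice M ∧ x - l ∈ Om M i0 k} =
        (fun n : Fin d → ℤ => M.mulVec (fun i => (n i : ℝ))) ''
          {n : Fin d → ℤ | M⁻¹.mulVec x - (fun i => (n i : ℝ)) ∈ box i0 k} := by
      ext l
      simp only [Set.mem_ofPred_eq, lattice, Set.mem_range, Set.mem_image]
      constructor
      · rintro ⟨⟨n, rfl⟩, h⟩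
        exact ⟨n, (mem_Om M hM i0 k x _).1 h, rfl⟩
      · rintro ⟨n, h, rfl⟩
        exact ⟨⟨n, rfl⟩, (mem_Om M hM i0 k x _).2 h⟩
    rw [h1, count]
    constructor
    · exact (Finset.finite_toSet _).image _
    · rw [Set.ncard_image_of_injective _ (mulVec_inj M hM), Set.ncard_coe_finset,
        Finset.card_image_of_injective, Finset.card_range]
      intro j j' h
      have := congrFun h i0
      simp only [Function.update_self] at this
      omega

/-- The modulation. -/
noncomputable def ex (γ x : Fin d → ℝ) : ℂ :=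
  Complex.exp (2 * Real.pi * Complex.I * ((∑ i, γ i * x i : ℝ) : ℂ))

lemma norm_ex (γ x : Fin d → ℝ) : ‖ex γ x‖ = 1 := by
  unfold ex
  have : 2 * Real.pi * Complex.I * ((∑ i, γ i * x i : ℝ) : ℂ) =
      ((2 * Real.pi * (∑ i, γ i * x i) : ℝ) : ℂ) * Complex.I := by
    push_cast; ring
  rw [this]
  exact Complex.norm_exp_ofReal_mul_I _

lemma continuous_ex (γ : Fin d → ℝ) : Continuous (ex γ) := by
  unfold ex
  fun_prop

/-- The modulated and translated indicator function. -/
noncomputable def ga (A : Set (Fin d → ℝ)) (γ l x : Fin d → ℝ) : ℂ :=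
  ex γ x * A.indicator (fun _ => (1 : ℂ)) (x - l)

lemma memLp_ind {A : Set (Fin d → ℝ)} (hA : MeasurableSet A) (hv : volume A ≠ ⊤)
    (l : Fin d → ℝ) : MemLp (fun x => A.indicator (fun _ => (1 : ℂ)) (x - l)) 2 volume :=
  (memLp_indicator_const 2 hA (1 : ℂ) (Or.inr hv)).comp_measurePreserving
    (measurePreserving_sub_right volume l)

lemma memLp_ga {A : Set (Fin d → ℝ)} (hA : MeasurableSet A) (hv : volume A ≠ ⊤)
    (γ l : Fin d → ℝ) : MemLp (ga A γ l) 2 volume := by
  refine (memLp_ind hA hv l).of_le ?_ (Filter.Eventually.of_forall fun x => ?_)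
  · exact (continuous_ex γ).aestronglyMeasurable.mul (memLp_ind hA hv l).1
  · unfold ga
    rw [norm_mul, norm_ex, one_mul]

lemma eLpNorm_ga {A : Set (Fin d → ℝ)} (hA : MeasurableSet A) (γ l : Fin d → ℝ) :
    eLpNorm (ga A γ l) 2 volume = eLpNorm (A.indicator (fun _ => (1 : ℂ))) 2 volume := by
  rw [← eLpNorm_comp_measurePreserving (f := fun x => x - l)
    ((measurable_const.indicator hA).aestronglyMeasurable)
    (measurePreserving_sub_right volume l)]
  refine eLpNorm_congr_norm_ae (Filter.Eventually.of_forall fun x => ?_)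
  unfold ga
  rw [norm_mul, norm_ex, one_mul]
  rfl

/-- The lattice points along the distinguished direction. -/
noncomputable def lp (M : Matrix (Fin d) (Fin d) ℝ) (i0 : Fin d) (n : ℤ) : Fin d → ℝ :=
  M.mulVec (fun i => ((Pi.single i0 n : Fin d → ℤ) i : ℝ))

lemma lp_mem (M : Matrix (Fin d) (Fin d) ℝ) (i0 : Fin d) (n : ℤ) : lp M i0 n ∈ lattice M :=
  ⟨Pi.single i0 n, rfl⟩

lemma lp_inj (M : Matrix (Fin d) (Fin d) ℝ) (hM : M.det ≠ 0) (i0 : Fin d) :
    Function.Injective (lp M i0) := by
  intro n m h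
  have h1 := mulVec_inj M hM h
  simpa using congrFun h1 i0

lemma mem_shift (M : Matrix (Fin d) (Fin d) ℝ) (hM : M.det ≠ 0) (i0 : Fin d) (k : ℕ) (n : ℤ)
    (x : Fin d → ℝ) : x - lp M i0 n ∈ Om M i0 k ↔
      (∀ i, i ≠ i0 → 0 ≤ M⁻¹.mulVec x i ∧ M⁻¹.mulVec x i < 1) ∧
        (n : ℝ) ≤ M⁻¹.mulVec x i0 ∧ M⁻¹.mulVec x i0 < n + k := by
  unfold lp
  rw [mem_Om M hM]
  simp only [box, Set.mem_pi, Set.mem_univ, forall_true_left, Pi.sub_apply, Set.mem_Ico]
  constructor
  · intro h
    refine ⟨fun i hi => ?_, ?_⟩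
    · have := h i
      simpa [hi] using this
    · have := h i0
      simp only [Pi.single_eq_same, if_true] at this
      constructor <;> linarith [this.1, this.2]
  · rintro ⟨h1, h2, h3⟩ i
    by_cases hi : i = i0
    · subst hi
      simp only [Pi.single_eq_same, if_true]
      constructor <;> linarith
    · have := h1 i hi
      simpa [hi] using this

lemma pointwise (M : Matrix (Fin d) (Fin d) ℝ) (hM : M.det ≠ 0) (i0 : Fin d) (k : ℕ)
    (hk : 1 ≤ k) (n : ℤ) (γ x : Fin d → ℝ) :
    ga (Om M i0 k) γ (lp M i0 n) x - ga (Om M i0 k) γ (lp M i0 (n + 1)) x =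
      ga (Om M i0 1) γ (lp M i0 n) x - ga (Om M i0 1) γ (lp M i0 (n + k)) x := by
  classical
  unfold ga
  rw [← mul_sub, ← mul_sub]
  congr 1
  simp only [Set.indicator_apply, mem_shift M hM]
  have hk' : (1 : ℝ) ≤ k := by exact_mod_cast hk
  by_cases hP : ∀ i, i ≠ i0 → 0 ≤ M⁻¹.mulVec x i ∧ M⁻¹.mulVec x i < 1
  · simp only [eq_true hP, true_and]
    set t := M⁻¹.mulVec x i0
    push_cast
    rcases lt_or_ge t n with h1 | h1
    · rw [if_neg (by rintro ⟨h, _⟩; linarith), if_neg (by rintro ⟨h, _⟩; linarith),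
        if_neg (by rintro ⟨h, _⟩; linarith), if_neg (by rintro ⟨h, _⟩; linarith)]
    rcases lt_or_ge t (n + 1) with h2 | h2
    · rw [if_pos ⟨h1, by linarith⟩, if_neg (by rintro ⟨h, _⟩; linarith),
        if_pos ⟨h1, by linarith⟩, if_neg (by rintro ⟨h, _⟩; linarith)]
    rcases lt_or_ge t (n + k) with h3 | h3
    · rw [if_pos ⟨h1, by linarith⟩, if_pos ⟨h2, by linarith⟩,
        if_neg (by rintro ⟨_, h⟩; linarith), if_neg (by rintro ⟨h, _⟩; linarith)]
      ring
    rcases lt_or_ge t (n + k + 1) with h4 | h4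
    · rw [if_neg (by rintro ⟨_, h⟩; linarith), if_pos ⟨h2, by linarith⟩,
        if_neg (by rintro ⟨_, h⟩; linarith), if_pos ⟨h3, by linarith⟩]
    · rw [if_neg (by rintro ⟨_, h⟩; linarith), if_neg (by rintro ⟨_, h⟩; linarith),
        if_neg (by rintro ⟨_, h⟩; linarith), if_neg (by rintro ⟨_, h⟩; linarith)]
  · rw [if_neg (fun h => hP h.1), if_neg (fun h => hP h.1), if_neg (fun h => hP h.1),
      if_neg (fun h => hP h.1)]

lemma main (M : Matrix (Fin d) (Fin d) ℝ) (hM : M.det ≠ 0) (i0 : Fin d) (k : ℕ) (hk : 2 ≤ k)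
    (Γ : Set (Fin d → ℝ)) (f : lattice M × Γ → L2 d)
    (hf : IsGaborSystem (Om M i0 k) (lattice M) Γ f) : ¬ IsRieszBasis f := by
  classical
  rintro ⟨b, T, hbT⟩
  have hA := measurableSet_Om M i0 1
  have hv : volume (Om M i0 1) ≠ ⊤ := by
    rw [volume_Om M hM]
    exact (ENNReal.mul_lt_top ENNReal.ofReal_lt_top (by simp)).ne
  have hv0 : volume (Om M i0 1) ≠ 0 := by
    rw [volume_Om M hM]
    exact (ENNReal.mul_pos (by simpa using hM) (by simp)).ne'
  set c : ℝ := (eLpNorm ((Om M i0 1).indicator (fun _ => (1 : ℂ))) 2 volume).toReal with hc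
  rcases Set.eq_empty_or_nonempty Γ with hΓ | ⟨γ, hγ⟩
  · subst hΓ
    have hall : ∀ x : L2 d, x = 0 := by
      intro x
      apply b.repr.injective
      ext i
      exact i.2.2.elim
    have h1 := hall ((memLp_ga hA hv 0 0).toLp)
    have h2 : ‖(memLp_ga hA hv 0 0).toLp‖ = c := by
      rw [Lp.norm_toLp, eLpNorm_ga hA]
    rw [h1, norm_zero, hc, eq_comm, ENNReal.toReal_eq_zero_iff] at h2
    rcases h2 with h2 | h2
    · rw [eLpNorm_indicator_const hA (by norm_num) (by norm_num)] at h2
      simp [hv0, hv] at h2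
    · rw [eLpNorm_indicator_const hA (by norm_num) (by norm_num)] at h2
      simp [hv0, hv, ENNReal.rpow_eq_top_iff] at h2
  · set g : ℤ → L2 d := fun n => (memLp_ga hA hv γ (lp M i0 n)).toLp with hg
    have hgn : ∀ n, ‖g n‖ = c := by
      intro n
      rw [hg, Lp.norm_toLp, eLpNorm_ga hA]
    set idx : ℤ → lattice M × Γ := fun n => (⟨lp M i0 n, lp_mem M i0 n⟩, ⟨γ, hγ⟩) with hidx
    have hidxinj : Function.Injective idx := by
      intro n m h
      exact lp_inj M hM i0 (congrArg (fun z => (z.1 : Fin d → ℝ)) h)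
    have hstep : ∀ n : ℤ, f (idx n) - f (idx (n + 1)) = g n - g (n + k) := by
      intro n
      apply Lp.ext
      have e1 := hf ⟨lp M i0 n, lp_mem M i0 n⟩ ⟨γ, hγ⟩
      have e2 := hf ⟨lp M i0 (n + 1), lp_mem M i0 (n + 1)⟩ ⟨γ, hγ⟩
      filter_upwards [Lp.coeFn_sub (f (idx n)) (f (idx (n + 1))), Lp.coeFn_sub (g n) (g (n + k)),
        e1, e2, (memLp_ga hA hv γ (lp M i0 n)).coeFn_toLp,
        (memLp_ga hA hv γ (lp M i0 (n + k))).coeFn_toLp] with x a1 a2 a3 a4 a5 a6
      rw [a1, a2, Pi.sub_apply, Pi.sub_apply, a3, a4]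
      have := pointwise M hM i0 k (by omega) n γ x
      unfold ga ex at this
      rw [this]
      congr 1
      · exact a5.symm
      · exact a6.symm
    have hsum : ∀ L : ℕ, T (∑ j ∈ Finset.range L,
        (b (idx ((j : ℤ) * k)) - b (idx ((j : ℤ) * k + 1)))) = g 0 - g ((L : ℤ) * k) := by
      intro L
      rw [map_sum]
      have : ∀ j ∈ Finset.range L, T (b (idx ((j : ℤ) * k)) - b (idx ((j : ℤ) * k + 1))) =
          g ((j : ℤ) * k) - g (((j + 1 : ℕ) : ℤ) * k) := by
        intro j _
        rw [map_sub, ← hbT, ← hbT, hstep]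
        congr 2
        push_cast
        ring
      rw [Finset.sum_congr rfl this, Finset.sum_range_sub' (fun j : ℕ => g ((j : ℤ) * k))]
      simp
    have hlow : ∀ L : ℕ, (L : ℝ) ≤ ‖∑ j ∈ Finset.range L,
        (b (idx ((j : ℤ) * k)) - b (idx ((j : ℤ) * k + 1)))‖ ^ 2 := by
      intro L
      set w := ∑ j ∈ Finset.range L,
        (b (idx ((j : ℤ) * k)) - b (idx ((j : ℤ) * k + 1))) with hw
      have hk0 : (k : ℤ) ≠ 0 := by omega
      have hinj2 : Function.Injective fun j : ℕ => idx ((j : ℤ) * k) := by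
        intro j j' h
        have h1 := hidxinj h
        have h2 := mul_right_cancel₀ hk0 h1
        exact_mod_cast h2
      have hon := b.orthonormal.comp _ hinj2
      have h1 := hon.sum_inner_products_le (x := w) (s := Finset.range L)
      refine le_trans (le_of_eq ?_) h1
      rw [Finset.sum_congr rfl (g := fun _ => (1 : ℝ))]
      · simp
      · intro i hi
        have h2 : inner ℂ (b (idx ((i : ℤ) * k))) w = 1 := by
          rw [hw, inner_sum]
          rw [Finset.sum_eq_single i]
          · rw [inner_sub_right]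
            have o := orthonormal_iff_ite.1 b.orthonormal
            rw [o, o, if_pos rfl, if_neg, sub_zero]
            intro h
            have := hidxinj h
            omega
          · intro j _ hji
            rw [inner_sub_right]
            have o := orthonormal_iff_ite.1 b.orthonormal
            rw [o, o, if_neg, if_neg, sub_zero]
            · intro h
              have h3 := hidxinj h
              have h4 : ((i : ℤ) - j) * k = 1 := by linarith
              have h5 : (k : ℤ) ∣ 1 := ⟨(i : ℤ) - j, by linarith⟩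
              have h6 := Int.le_of_dvd (by norm_num) h5
              omega
            · intro h
              exact hji (hinj2 h).symm
          · intro h; exact absurd hi h
        simp only [Function.comp]
        rw [h2]
        simp
    have hup : ∀ L : ℕ, (L : ℝ) ≤ (‖(T.symm : L2 d →L[ℂ] L2 d)‖ * (2 * c)) ^ 2 := by
      intro L
      refine (hlow L).trans ?_
      refine pow_le_pow_left₀ (norm_nonneg _) ?_ 2
      set w := ∑ j ∈ Finset.range L,
        (b (idx ((j : ℤ) * k)) - b (idx ((j : ℤ) * k + 1))) with hw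
      have h1 : w = (T.symm : L2 d →L[ℂ] L2 d) (T w) := by simp
      rw [h1]
      refine ((T.symm : L2 d →L[ℂ] L2 d).le_opNorm _).trans ?_
      refine mul_le_mul_of_nonneg_left ?_ (norm_nonneg _)
      rw [hsum L]
      refine (norm_sub_le _ _).trans ?_
      rw [hgn, hgn]
      linarith
    obtain ⟨L, hL⟩ := exists_nat_gt ((‖(T.symm : L2 d →L[ℂ] L2 d)‖ * (2 * c)) ^ 2)
    exact absurd (hup L) (not_le.2 hL)

end

/-- In every dimension, for every full rank lattice and every level `k ≥ 2`, there is a set which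
multi-tiles by the lattice at level `k` and whose indicator function is not the window of a Gabor
Riesz basis with translations in the lattice and any set of modulations. -/
theorem result (d : ℕ) (hd : 1 ≤ d) (M : Matrix (Fin d) (Fin d) ℝ) (hM : M.det ≠ 0) (k : ℕ)
    (hk : 2 ≤ k) : ∃ Ω : Set (Fin d → ℝ), MultiTiles Ω (lattice M) k ∧
      ∀ Γ : Set (Fin d → ℝ), ¬ ∃ f : lattice M × Γ → L2 d,
        IsGaborSystem Ω (lattice M) Γ f ∧ IsRieszBasis f := by
  refine ⟨Om M ⟨0, hd⟩ k, multiTiles M hM _ k (by omega), ?_⟩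
  rintro Γ ⟨f, hf, hR⟩
  exact main M hM _ k hk Γ f hf hR

end Pool.Agent.Results.MP_9d6809_an.Cells
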